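import Pool.Agent.W282.EZ.Top

/-!
# MP_eeb1a4_ag: Zilber-Pink for sections of elliptic schemes and almost all special subvarieties

Let `V` be an irreducible variety over `ℂ` of dimension `m`, let `E` be an elliptic scheme
`y ^ 2 = x ^ 3 + A x + B` over `V`, and let `P_1, …, P_n` be sections of `E`. They define an
admissible variation of mixed Hodge structures on `V` (the `1`-motives `[ℤ^n → E_s]`), with
period map to a mixed Shimura variety, the `n`-th fibre power of a universal elliptic curve. For a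
tuple `lam` of `r` vectors in `ℤ^n` of rank `r` the locus where `∑_j lam_{tj} P_j = 0` for all `t`
is the preimage of a special subvariety of codimension `r`. We prove that for almost all `lam` of
size at most `B` every irreducible subset of this locus has the dimension at most `m - r`
(so there is no atypical intersection), unless all sections are torsion points on it (this case is
covered by the relative Manin-Mumford theorem). All of this is uniform in the scheme, in
the sections and in `V`.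
-/

open MvPolynomial
open scoped ENNReal

namespace Pool.Agent.Results.MP_eeb1a4_ag.AlmostAllRelations

open Pool.Agent.W282.ZP Pool.Agent.W282.DZ Pool.Agent.W282.EZ

variable {N n : ℕ}

open Classical in
/-- The point with Jacobian coordinates `(X : Y : T)` of the curve `y ^ 2 = x ^ 3 + A x + B`:
the point `(X / T ^ 2, Y / T ^ 3)`, and the origin for `T = 0`. -/
noncomputable def jac {K : Type} [Field K] (A B X Y T : K) : (cv A B).Point :=
  if T = 0 then 0 else pt A B (X / T ^ 2) (Y / T ^ 3)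

/-- The value of the `j`-th section at the point `s`. -/
noncomputable def val (E : Sec N n) (s : Fin N → ℂ) (j : Fin n) :=
  jac (eval s E.A) (eval s E.B) (eval s (E.X j)) (eval s (E.Y j)) (eval s (E.T j))

/-- Over `V`, `E` is an elliptic scheme with `n` sections. -/
def IsScheme (E : Sec N n) (V : Set (Fin N → ℂ)) : Prop :=
  ∀ s ∈ V, 4 * eval s E.A ^ 3 + 27 * eval s E.B ^ 2 ≠ 0 ∧
    ∀ j, eval s (E.Y j) ^ 2 = eval s (E.X j) ^ 3 + eval s E.A * eval s (E.X j) *
        eval s (E.T j) ^ 4 + eval s E.B * eval s (E.T j) ^ 6 ∧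
      (eval s (E.X j) ≠ 0 ∨ eval s (E.T j) ≠ 0)

open Classical in
/-- The relation `a` between the sections holds at `s`. -/
def Rel (E : Sec N n) (a : Fin n → ℤ) (s : Fin N → ℂ) : Prop :=
  ∑ j, a j • val E s j = 0

open Classical in
/-- All sections have finite order at `s`, dividing `k`. -/
def Torsion (E : Sec N n) (k : ℕ) (s : Fin N → ℂ) : Prop :=
  ∀ j, k • val E s j = 0

/-- For all `lam` of size at most `B` outside of a set of at most `M` exceptions, every irreducible
subset of `V` on which the relations `lam` hold has dimension at most `m - r`, or all sections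
are torsion points on it. -/
def TypicalAllBut (E : Sec N n) (V : Set (Fin N → ℂ)) (m r B : ℕ) (M : ℝ≥0∞) : Prop :=
  ∃ Ex : Finset (Fin r → Fin n → ℤ), (Ex.card : ℝ≥0∞) ≤ M ∧
    ∀ lam : Fin r → Fin n → ℤ, lam ∉ Ex → (∀ t j, |lam t j| ≤ (B : ℤ)) →
      ∀ A ⊆ V, (idealOf A).IsPrime → (∀ s ∈ A, ∀ t, Rel E (lam t) s) →
        zdim A + (r : Cardinal) ≤ (m : Cardinal) ∨ ∃ k : ℕ, 0 < k ∧ ∀ s ∈ A, Torsion E k s

/-- The group of relations between the sections over `V` has rank at most `n - N'`. -/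
def RankGE (E : Sec N n) (V : Set (Fin N → ℂ)) (N' : ℕ) : Prop :=
  ∀ Λ : Submodule ℤ (Fin n → ℤ), (∀ a ∈ Λ, ∀ s ∈ V, Rel E a s) →
    Module.finrank ℤ Λ + N' ≤ n

theorem jac_eq {K : Type} [Field K] (A B X Y T : K) :
    jac A B X Y T = pt A B (jx X T) (jy B Y T) := by
  classical
  rw [jac]
  by_cases h : T = 0
  · rw [if_pos h, h, pt_zero]
  · rw [if_neg h, jx, jy, if_neg h]

theorem rel_iff (E : Sec N n) (s : Fin N → ℂ) (a : Fin n → ℤ) :
    Rel E a s ↔ a ∈ E.rel (eval s) := by
  classical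
  rw [Rel, Sec.rel, mem_LJ]
  simp only [val, jac_eq]

theorem result (N n r D : ℕ) (hr : 1 ≤ r) : ∃ C : ℕ, ∀ E : Sec N n, E.DegLE D →
    ∀ (m : ℕ) (V : Set (Fin N → ℂ)), (idealOf V).IsPrime → IsScheme E V →
    zdim V = (m : Cardinal) →
    Deg m (idealOf V) ≠ ⊤ ∧
    (m + 2 ≤ r → ∀ B : ℕ, 2 ≤ B → TypicalAllBut E V m r B
      (C * Deg m (idealOf V) * (B : ℝ≥0∞) ^ (n * r - 2) * (Nat.log 2 B : ℝ≥0∞) ^ r)) ∧
    ∀ N' : ℕ, RankGE E V N' → ∀ δ ≤ r, (r ≤ m + 1 → δ ≤ 2) →
      δ + 2 * min m (r - 1) ≤ N' * (r - min m (r - 1)) →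
      ∀ B : ℕ, 2 ≤ B → TypicalAllBut E V m r B
        (C * Deg m (idealOf V) * (B : ℝ≥0∞) ^ (n * r - δ) * (Nat.log 2 B : ℝ≥0∞) ^ r) := by
  classical
  choose C hC using fun δ : Fin (r + 2) => main N n r δ (max D 1) 1 (le_max_right _ _) (one_dvd _)
  refine ⟨∑ δ, C δ, fun E hE m V hV hon hm => ?_⟩
  have hE' : E.DegLE (max D 1) := ⟨hE.1.trans (le_max_left _ _), hE.2.1.trans (le_max_left _ _),
    fun j => ⟨(hE.2.2 j).1.trans (le_max_left _ _), (hE.2.2 j).2.trans (le_max_left _ _)⟩⟩
  have hm' : dimQ (idealOf V) = m := by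
    rw [dimQ]
    change Cardinal.toNat (zdim V) = m
    rw [hm, Cardinal.toNat_natCast]
  have hon' : E.On V := by
    intro s hs
    obtain ⟨h1, h2⟩ := hon s hs
    refine ⟨?_, fun j => ⟨?_, (h2 j).2⟩⟩
    · simpa using h1
    · rw [map_sub, sub_eq_zero]
      simpa using (h2 j).1
  obtain ⟨D', hD'⟩ := deg_lt_top hV
  rw [hm'] at hD'
  -- translation of the conclusion
  have key : ∀ (B : ℕ) (M M' : ℝ≥0∞), E.AllBut V r B M → M ≤ M' → TypicalAllBut E V m r B M' := by
    rintro B M M' ⟨X, hX, h⟩ hMM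
    refine ⟨X, hX.trans hMM, fun lam hlam hsize A hA hprime hrel => ?_⟩
    have h1 := h lam hlam hsize A hA hprime fun t => E.mem_relOn.2 fun s hs =>
      (rel_iff E s _).1 (hrel s hs t)
    rcases h1 with h1 | ⟨k, hk, h1⟩
    · left
      have h2 : zdim A = (dimQ (idealOf A) : Cardinal) :=
        (Cardinal.cast_toNat_of_lt_aleph0 (trdeg_lt (idealOf A) hprime)).symm
      rw [h2, ← hm']
      exact_mod_cast h1
    · refine Or.inr ⟨k, hk, fun s hs j => ?_⟩
      have h2 := (rel_iff E s _).2 (E.mem_relOn.1 (h1 j) s hs)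
      rw [Rel, Finset.sum_eq_single j] at h2
      · rw [Pi.smul_apply, Pi.single_eq_same, smul_eq_mul, mul_one, natCast_zsmul] at h2
        exact h2
      · intro i _ hij
        rw [Pi.smul_apply, Pi.single_eq_of_ne hij, smul_zero, zero_zsmul]
      · intro h
        exact absurd (Finset.mem_univ _) h
  have hMA : ∀ (δ : Fin (r + 2)) (B e : ℕ),
      ((C δ * B ^ e * Nat.log 2 B ^ r : ℕ) : ℝ≥0∞) * Deg (dimQ (idealOf V)) (idealOf V) ≤
      ((∑ δ, C δ : ℕ) : ℝ≥0∞) * Deg m (idealOf V) * (B : ℝ≥0∞) ^ e *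
        (Nat.log 2 B : ℝ≥0∞) ^ r := by
    intro δ B e
    rw [hm']
    calc ((C δ * B ^ e * Nat.log 2 B ^ r : ℕ) : ℝ≥0∞) * Deg m (idealOf V)
        = (C δ : ℝ≥0∞) * Deg m (idealOf V) * (B : ℝ≥0∞) ^ e * (Nat.log 2 B : ℝ≥0∞) ^ r := by
          push_cast
          ring
      _ ≤ _ := by
          gcongr
          exact Finset.single_le_sum (f := C) (fun _ _ => Nat.zero_le _) (Finset.mem_univ δ)
  refine ⟨fun h => ?_, fun hr2 B hB => ?_, fun N' hN δ hδ hδ2 hδN B hB => ?_⟩
  · rw [h, top_le_iff] at hD'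
    exact ENNReal.natCast_ne_top D' hD'
  · -- at least `m + 2` relations
    refine key B _ _ (hC ⟨2, by omega⟩ E hE' V hV hon' (fun _ _ _ => one_dvd _) ?_ B hB)
      (hMA _ B _)
    intro u hur hum hcase
    rw [hm'] at hum
    change (∀ u' < u, 2 * u' + 2 ≤ 1 * (1 + u') * (r - u')) ∧
      (n + 2) * u + Module.finrank ℤ (E.relOn V) * (r - u) + 2 ≤ n * r
    constructor
    · intro u' hu'
      have h1 : (1 + u') * 2 ≤ (1 + u') * (r - u') := Nat.mul_le_mul_left _ (by omega)
      rw [one_mul]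
      omega
    · generalize Module.finrank ℤ (E.relOn V) = ρ at hcase
      obtain ⟨c, hc⟩ : ∃ c, n = ρ + u + 1 + c := ⟨n - (ρ + u + 1), by omega⟩
      obtain ⟨k, hk⟩ : ∃ k, r = u + 2 + k := ⟨r - (u + 2), by omega⟩
      have hru : r - u = k + 2 := by omega
      rw [hru, hk, hc]
      nlinarith [Nat.zero_le (u * k), Nat.zero_le (c * k), Nat.zero_le (c * u)]
  · -- sections with few relations
    refine key B _ _ (hC ⟨δ, by omega⟩ E hE' V hV hon' (fun _ _ _ => one_dvd _) ?_ B hB)
      (hMA _ B _)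
    intro u hur hum hcase
    rw [hm'] at hum
    change (∀ u' < u, 2 * u' + δ ≤ 1 * (1 + u') * (r - u')) ∧
      (n + 2) * u + Module.finrank ℤ (E.relOn V) * (r - u) + δ ≤ n * r
    have hρN : Module.finrank ℤ (E.relOn V) + N' ≤ n :=
      hN _ fun a ha s hs => (rel_iff E s a).2 (E.mem_relOn.1 ha s hs)
    set v := min m (r - 1) with hv
    have huv : u ≤ v := by omega
    constructor
    · intro u' hu'
      rw [one_mul, add_mul, one_mul]
      rcases Nat.lt_or_ge (m + 1) r with h | h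
      · have h1 : u' * 3 ≤ u' * (r - u') := Nat.mul_le_mul_left _ (by omega)
        omega
      · have h1 : u' * 2 ≤ u' * (r - u') := Nat.mul_le_mul_left _ (by omega)
        have h2 := hδ2 h
        omega
    · generalize Module.finrank ℤ (E.relOn V) = ρ at hρN
      have h1 : N' * (r - v) ≤ N' * (r - u) := Nat.mul_le_mul_left _ (by omega)
      obtain ⟨k, hk⟩ : ∃ k, r = u + k := ⟨r - u, by omega⟩
      have hru : r - u = k := by omega
      rw [hru] at h1 ⊢
      obtain ⟨c, hc⟩ : ∃ c, n = ρ + N' + c := ⟨n - (ρ + N'), by omega⟩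
      have h2 : δ + 2 * u ≤ N' * k := by omega
      rw [hk, hc]
      nlinarith [Nat.zero_le (c * k), Nat.zero_le (N' * u), Nat.zero_le (c * u)]

end Pool.Agent.Results.MP_eeb1a4_ag.AlmostAllRelations
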